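import Pool.Agent.Work.MP_16d7ed_al.GK.Main

/-!
# MP_16d7ed_al: finitely presented domains of growth exponent less than three over algebraic extensions of `F_p`

Let `k` be algebraic over `F_p`, `R` a finitely presented `k`-algebra without zero divisors, of growth exponent `< 3`,
`y` an element of `R` transcendental over `k` and `X` a finite subset of `R`.
(A) If for every `x` in `X` the elements `y^i x y^j` are linearly dependent over `k`, then the subalgebra generated by `y` and
`X` embeds in a matrix ring over a commutative ring.
(B) If `R` is simple and generated by `y` and `X`, then for some `x` in `X` the elements `y^i x y^j` are linearly independent.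
-/

set_option autoImplicit false

namespace Pool.Agent.Results.MP_16d7ed_al.GrowthBelowThree

open Pool.Agent.Work.MP_16d7ed_al.GK

universe u

theorem result (p : ℕ) [Fact p.Prime] (k : Type u) [Field k] [Algebra (ZMod p) k]
    [Algebra.IsAlgebraic (ZMod p) k] (R : Type u) [Ring R] [NoZeroDivisors R] [Algebra k R]
    (hfp : FinPres k R) (hgr : GrowthBelowThree k R) (y : R) (hy : Transcendental k y)
    (X : Set R) (hX : X.Finite) :
    ((∀ x ∈ X, ¬ LinearIndependent k (fun i : ℕ × ℕ => y ^ i.1 * x * y ^ i.2)) →
      ∃ (n : ℕ) (C : Type u) (_ : CommRing C)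
        (φ : Algebra.adjoin k (insert y X) →+* Matrix (Fin n) (Fin n) C), Function.Injective φ) ∧
    (IsSimpleRing R → Algebra.adjoin k (insert y X) = ⊤ →
      ∃ x ∈ X, LinearIndependent k (fun i : ℕ × ℕ => y ^ i.1 * x * y ^ i.2)) := by
  refine ⟨fun hal => mainA p hfp hgr y hy X hX hal, fun hs hgen => ?_⟩
  haveI := hs
  exact mainB p hfp hgr y hy X hX hgen

end Pool.Agent.Results.MP_16d7ed_al.GrowthBelowThree
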