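import Pool.Agent.Work.MP_16d7ed_al.OB.MainB
import Pool.Agent.Work.MP_16d7ed_al.OB.MainC

/-!
# MP_16d7ed_al: no admissible algebra in difference-differential operator rings over algebraic extensions of `F_p`

Let `k` be algebraic over `F_p` and `K = k(x_1, ..., x_n)`.
(A) Let `s` be an automorphism of the field `K` over `k` with `s(k[x_1..x_n]) = k[x_1..x_n]`. Every finitely
generated simple algebra of matrices over the ring of operators on `K` generated by ALL differential operators
(the `k`-linear maps which are linear over `K^(p^m)` for some `m`), `s` and its inverse is finite-dimensional.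
(B) The same holds in the abstract skew Laurent ring `K[t, t^-1; s]`.
-/

set_option autoImplicit false

namespace Pool.Agent.Results.MP_16d7ed_al.NoDifferenceDifferential

open Pool.Agent.Work.MP_16d7ed_al.OB

universe u v

theorem result (p : ℕ) [Fact p.Prime] (k : Type u) [Field k] [Algebra (ZMod p) k]
    [Algebra.IsAlgebraic (ZMod p) k] (n : ℕ) (K : Type v) [Field K] [Algebra k K]
    [Algebra (MvPolynomial (Fin n) k) K] [IsScalarTower k (MvPolynomial (Fin n) k) K]
    [IsFractionRing (MvPolynomial (Fin n) k) K] :
    (∀ s : K ≃ₐ[k] K,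
      (∀ f : MvPolynomial (Fin n) k, ∃ f' : MvPolynomial (Fin n) k,
        s (algebraMap _ K f) = algebraMap _ K f') →
      (∀ f : MvPolynomial (Fin n) k, ∃ f' : MvPolynomial (Fin n) k,
        s.symm (algebraMap _ K f) = algebraMap _ K f') →
      ∀ (r : ℕ) (D : Subalgebra k (Matrix (Fin r) (Fin r) (Module.End k K))), D.FG →
        (∀ M ∈ D, ∀ i j, M i j ∈ ddOps p k K s) → IsSimpleRing D → Module.Finite k D) ∧
    (∀ (_ : MulSemiringAction (Multiplicative ℤ) K) (_ : SMulCommClass (Multiplicative ℤ) k K),
      (∀ (g : Multiplicative ℤ) (f : MvPolynomial (Fin n) k),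
        ∃ f' : MvPolynomial (Fin n) k, g • (algebraMap _ K f) = algebraMap _ K f') →
      ∀ D : Subalgebra k (SkewMonoidAlgebra K (Multiplicative ℤ)), D.FG → IsSimpleRing D →
        Module.Finite k D) := by
  refine ⟨fun s hs hs' r D hD hDs hsimple => dd_simple_finite p k n K s hs hs' r D hD hDs hsimple, ?_⟩
  intro i1 i2 hσ D hD hsimple
  exact simple_finite p k n K hσ D hD hsimple

end Pool.Agent.Results.MP_16d7ed_al.NoDifferenceDifferential
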