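import Pool.Agent.Work.MP_16d7ed_al.SL.MainA

/-!
# MP_16d7ed_al: a finitely presented infinite-dimensional simple domain over EVERY field

The algebra is the skew group ring `A * F` where `A` is the localization of `k[x^±1, y^±1]` at all
`x^a y^b - 1` with `gcd(a, b) = 1` and `F` is the free group generated by the two matrices
`((1, 2), (0, 1))` and `((1, 0), (2, 1))`, acting by monomial automorphisms. Here every field is
allowed, in particular the algebraic extensions of `F_p`, for which the problem is open.
-/

set_option autoImplicit false

namespace Pool.Agent.Results.MP_16d7ed_al.SimpleDomainEveryField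

universe u

theorem result (k : Type u) [Field k] :
    ∃ (R : Type u) (_ : Ring R) (_ : Algebra k R),
      IsSimpleRing R ∧ IsDomain R ∧ ¬ Module.Finite k R ∧
      ∃ (n : ℕ) (f : FreeAlgebra k (Fin n) →ₐ[k] R), Function.Surjective f ∧
        ∃ S : Finset (FreeAlgebra k (Fin n)),
          ∀ x, f x = 0 ↔ x ∈ TwoSidedIdeal.span (S : Set (FreeAlgebra k (Fin n))) :=
  Pool.Agent.Work.MP_16d7ed_al.SL.simple_domain k

end Pool.Agent.Results.MP_16d7ed_al.SimpleDomainEveryField
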